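import Pool.Agent.Y142.SU.Stm
import Pool.Agent.H204R3.GP.FFT
import Pool.Agent.Y155.ZI.Tens
import Pool.Agent.Y100.ZS.Tenss

/-! # The first fundamental theorem for products of special linear groups in degree `k < n`
(task FFTU of the project Y142-SU) -/

set_option autoImplicit false

open Matrix
open Pool.Agent.Y142.ZO (bil)
namespace Pool.Agent.Y468.SU

/-- a reduced commutative finite-dimensional algebra over an algebraically closed field is a
product of copies of the field -/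
theorem idemAbs (F : Type) [Field F] [IsAlgClosed F] (C : Type) [CommRing C] [Algebra F C]
    [Module.Finite F C] [IsReduced C] :
    ∃ (T : Type) (_ : Fintype T) (E : T → C),
      (∀ t, E t * E t = E t) ∧ (∀ t, E t ≠ 0) ∧ (∀ s t, s ≠ t → E s * E t = 0) ∧
      ∑ t, E t = 1 ∧ ∀ (A : C) (t : T), ∃ c : F, A * E t = c • E t := by
  classical
  haveI : IsArtinianRing C := IsArtinianRing.of_finite F C
  letI : Fintype (MaximalSpectrum C) := Fintype.ofFinite _
  let e := IsArtinianRing.equivPi C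
  have hE : ∀ t : MaximalSpectrum C, e (e.symm (Pi.single t 1)) = Pi.single t 1 :=
    fun t => e.apply_symm_apply _
  refine ⟨MaximalSpectrum C, inferInstance, fun t => e.symm (Pi.single t 1), ?_, ?_, ?_, ?_, ?_⟩
  · intro t
    apply e.injective
    rw [map_mul, hE, ← Pi.single_mul, one_mul]
  · intro t h
    have h1 := hE t
    have h' : e.symm (Pi.single t 1) = 0 := h
    rw [h', map_zero] at h1
    have h2 := congrFun h1 t
    rw [Pi.single_eq_same, Pi.zero_apply] at h2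
    haveI := t.isMaximal
    haveI : Nontrivial (C ⧸ t.asIdeal) := Ideal.Quotient.nontrivial_iff.2 t.isMaximal.ne_top
    exact zero_ne_one h2
  · intro s t hst
    apply e.injective
    rw [map_mul, hE, hE, map_zero]
    funext i
    rw [Pi.mul_apply, Pi.zero_apply]
    by_cases h : i = s
    · subst h
      rw [Pi.single_eq_of_ne hst, mul_zero]
    · rw [Pi.single_eq_of_ne h, zero_mul]
  · apply e.injective
    rw [map_sum, map_one, Finset.sum_congr rfl fun t _ => hE t]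
    exact Finset.univ_sum_single (1 : ∀ I : MaximalSpectrum C, C ⧸ I.asIdeal)
  · intro A t
    haveI := t.isMaximal
    letI : Field (C ⧸ t.asIdeal) := Ideal.Quotient.field t.asIdeal
    have hfin : Module.Finite F (C ⧸ t.asIdeal) := inferInstance
    have hsurj : Function.Surjective (algebraMap F (C ⧸ t.asIdeal)) := by
      haveI : Algebra.IsIntegral F (C ⧸ t.asIdeal) := inferInstance
      exact (IsAlgClosed.algebraMap_bijective_of_isIntegral (k := F)
        (K := C ⧸ t.asIdeal)).surjective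
    obtain ⟨c, hc⟩ := hsurj (Ideal.Quotient.mk t.asIdeal A)
    refine ⟨c, ?_⟩
    apply e.injective
    rw [Algebra.smul_def, map_mul, map_mul, hE]
    funext i
    rw [Pi.mul_apply, Pi.mul_apply]
    by_cases h : i = t
    · subst h
      rw [Pi.single_eq_same, mul_one, mul_one]
      exact hc.symm
    · rw [Pi.single_eq_of_ne h, mul_zero, mul_zero]

theorem idem {F : Type} [Field F] [IsAlgClosed F] {N : ℕ}
    (𝒞 : Subalgebra F (Matrix (Fin N) (Fin N) F)) (hcomm : ∀ A ∈ 𝒞, ∀ B ∈ 𝒞, A * B = B * A)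
    (hred : ∀ A ∈ 𝒞, IsNilpotent A → A = 0) :
    ∃ (T : Type) (_ : Fintype T) (E : T → Matrix (Fin N) (Fin N) F), (∀ t, E t ∈ 𝒞) ∧
      (∀ t, E t * E t = E t) ∧ (∀ t, E t ≠ 0) ∧ (∀ s t, s ≠ t → E s * E t = 0) ∧
      ∑ t, E t = 1 ∧ ∀ A ∈ 𝒞, ∀ t : T, ∃ c : F, A * E t = c • E t := by
  letI inst : CommRing 𝒞 :=
    { (inferInstance : Ring 𝒞) with mul_comm := fun a b => Subtype.ext (hcomm _ a.2 _ b.2) }
  haveI hfin : Module.Finite F 𝒞 := inferInstance
  haveI hr : IsReduced 𝒞 := ⟨fun x hx => by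
    apply Subtype.ext
    refine hred _ x.2 ?_
    obtain ⟨n, hn⟩ := hx
    exact ⟨n, by
      have := congrArg (Subtype.val) hn
      simpa using this⟩⟩
  obtain ⟨T, hT, E, h1, h2, h3, h4, h5⟩ := idemAbs F 𝒞
  refine ⟨T, hT, fun t => (E t : Matrix (Fin N) (Fin N) F), fun t => (E t).2, fun t => ?_,
    fun t h => h2 t (Subtype.ext h), fun s t hst => ?_, ?_, fun A hA t => ?_⟩
  · exact congrArg Subtype.val (h1 t)
  · exact congrArg Subtype.val (h3 s t hst)
  · have h6 : ((∑ t, E t : 𝒞) : Matrix (Fin N) (Fin N) F) = 1 := congrArg Subtype.val h4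
    rw [← h6]
    exact (map_sum 𝒞.val E Finset.univ).symm
  · obtain ⟨c, hc⟩ := h5 ⟨A, hA⟩ t
    exact ⟨c, congrArg Subtype.val hc⟩

/-- the involution of the idempotents -/
theorem star {F : Type} [Field F] [CharZero F] {N : ℕ} {J : Matrix (Fin N) (Fin N) F}
    {𝒞 : Subalgebra F (Matrix (Fin N) (Fin N) F)} (hJ : Jᵀ = -J) (hdet : J.det ≠ 0)
    (hcomm : ∀ A ∈ 𝒞, ∀ B ∈ 𝒞, A * B = B * A)
    (hadj : ∀ A ∈ 𝒞, ∃ A' ∈ 𝒞, Aᵀ * J = J * A') {B : Matrix (Fin N) (Fin N) F} (hB : B ∈ 𝒞)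
    (hBJ : Bᵀ * J = -(J * B)) (hBdet : B.det ≠ 0)
    {T : Type} [Fintype T] {E : T → Matrix (Fin N) (Fin N) F} (h0 : ∀ t, E t ∈ 𝒞)
    (h1 : ∀ t, E t * E t = E t) (h2 : ∀ t, E t ≠ 0) (h3 : ∀ s t, s ≠ t → E s * E t = 0)
    (h4 : ∑ t, E t = 1) (h5 : ∀ A ∈ 𝒞, ∀ t : T, ∃ c : F, A * E t = c • E t) :
    ∃ st : T → T, (∀ t, st (st t) = t) ∧ (∀ t, st t ≠ t) ∧ ∀ t, (E t)ᵀ * J = J * E (st t) := by
  classical
  have hu : IsUnit J.det := isUnit_iff_ne_zero.2 hdet
  have hcan : ∀ X Y : Matrix (Fin N) (Fin N) F, J * X = J * Y → X = Y := by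
    intro X Y h
    have h' := congrArg (fun Z => J⁻¹ * Z) h
    simp only [← Matrix.mul_assoc, Matrix.nonsing_inv_mul _ hu, Matrix.one_mul] at h'
    exact h'
  have htr : ∀ A A' : Matrix (Fin N) (Fin N) F, Aᵀ * J = J * A' → A'ᵀ * J = J * A := by
    intro A A' h
    have h' := congrArg transpose h
    rw [transpose_mul, transpose_mul, transpose_transpose, hJ, neg_mul, mul_neg, neg_inj] at h'
    exact h'.symm
  have key : ∀ t s, (E t)ᵀ * J * E s ≠ 0 → ∃ E' ∈ 𝒞, (E t)ᵀ * J = J * E' ∧ E' * E s = E s := by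
    intro t s hts
    obtain ⟨E', hE', hE'J⟩ := hadj _ (h0 t)
    refine ⟨E', hE', hE'J, ?_⟩
    obtain ⟨c, hc⟩ := h5 E' hE' s
    have hid : E' * E' = E' := by
      apply hcan
      rw [← Matrix.mul_assoc, ← hE'J, Matrix.mul_assoc, ← hE'J, ← Matrix.mul_assoc,
        ← transpose_mul, h1]
    have hc0 : c ≠ 0 := by
      intro h
      apply hts
      rw [hE'J, Matrix.mul_assoc, hc, h, zero_smul, Matrix.mul_zero]
    have hcc : c • E s = (c * c) • E s := by
      calc c • E s = E' * E s := hc.symm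
        _ = E' * (E' * E s) := by rw [← Matrix.mul_assoc, hid]
        _ = (c * c) • E s := by rw [hc, Matrix.mul_smul, hc, smul_smul]
    have h6 : (c - c * c) • E s = 0 := by rw [sub_smul, ← hcc, sub_self]
    rcases smul_eq_zero.1 h6 with h7 | h7
    · have h8 : c = 1 := by
        have h9 : c * (1 - c) = 0 := by rw [mul_sub, mul_one]; exact h7
        rcases mul_eq_zero.1 h9 with h10 | h10
        · exact absurd h10 hc0
        · exact (sub_eq_zero.1 h10).symm
      rw [hc, h8, one_smul]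
    · exact absurd h7 (h2 s)
  have hex : ∀ t, ∃ s, (E t)ᵀ * J = J * E s := by
    intro t
    have h6 : ∃ s, (E t)ᵀ * J * E s ≠ 0 := by
      by_contra hcon
      push Not at hcon
      have h7 : (E t)ᵀ * J = 0 := by
        calc (E t)ᵀ * J = (E t)ᵀ * J * ∑ s, E s := by rw [h4, Matrix.mul_one]
          _ = 0 := by rw [Matrix.mul_sum]; exact Finset.sum_eq_zero fun s _ => hcon s
      have h8 : J * E t = 0 := by
        have h9 := htr (E t) 0 (by rw [h7, Matrix.mul_zero])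
        rw [transpose_zero, Matrix.zero_mul] at h9
        exact h9.symm
      exact h2 t (hcan _ _ (by rw [h8, Matrix.mul_zero]))
    obtain ⟨s, hs⟩ := h6
    refine ⟨s, ?_⟩
    obtain ⟨E', hE', e1, e2⟩ := key t s hs
    have hs' : (E s)ᵀ * J * E t ≠ 0 := by
      intro h
      apply hs
      have h' := congrArg transpose h
      rw [transpose_mul, transpose_mul, transpose_transpose, hJ, transpose_zero,
        neg_mul, mul_neg, neg_eq_zero, ← Matrix.mul_assoc] at h'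
      exact h'
    obtain ⟨E'', hE'', e3, e4⟩ := key s t hs'
    have e5 := htr _ _ e3
    calc (E t)ᵀ * J = (E'' * E t)ᵀ * J := by rw [e4]
      _ = (E t)ᵀ * (E''ᵀ * J) := by rw [transpose_mul, Matrix.mul_assoc]
      _ = (E t)ᵀ * J * E s := by rw [e5, Matrix.mul_assoc]
      _ = J * E s := by rw [e1, Matrix.mul_assoc, e2]
  choose st hst using hex
  refine ⟨st, ?_, ?_, hst⟩
  · intro t
    by_contra hne
    have h6 : E t = E (st (st t)) := by
      apply hcan
      rw [← htr _ _ (hst t), hst]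
    apply h2 t
    rw [← h1 t]
    nth_rewrite 1 [h6]
    exact h3 _ _ hne
  · intro t ht
    obtain ⟨b, hb⟩ := h5 B hB t
    have hb0 : b ≠ 0 := by
      intro h
      rw [h, zero_smul] at hb
      apply h2 t
      have h' := congrArg (fun Z => B⁻¹ * Z) hb
      simp only [← Matrix.mul_assoc, Matrix.nonsing_inv_mul _ (isUnit_iff_ne_zero.2 hBdet),
        Matrix.one_mul, Matrix.mul_zero] at h'
      exact h'
    have e1 := hst t
    rw [ht] at e1
    have e2 : (B * E t)ᵀ * J = -(b • (J * E t)) := by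
      rw [transpose_mul, Matrix.mul_assoc, hBJ, Matrix.mul_neg, ← Matrix.mul_assoc, e1,
        Matrix.mul_assoc, hcomm _ (h0 t) _ hB, hb, Matrix.mul_smul]
    have e3 : (B * E t)ᵀ * J = b • (J * E t) := by
      rw [hb, transpose_smul, Matrix.smul_mul, e1]
    rw [e3] at e2
    have e4 : (2 * b) • (J * E t) = 0 := by
      rw [mul_smul, two_smul]
      nth_rewrite 1 [e2]
      exact neg_add_cancel _
    rcases smul_eq_zero.1 e4 with h | h
    · exact hb0 ((mul_eq_zero.1 h).resolve_left two_ne_zero)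
    · exact h2 t (hcan _ _ (by rw [h, Matrix.mul_zero]))

/-- a basis adapted to the coefficients and the form -/
structure Frame {F : Type} [Field F] {N : ℕ} (J : Matrix (Fin N) (Fin N) F)
    (𝒞 : Subalgebra F (Matrix (Fin N) (Fin N) F)) (n : ℕ) where
  m : ℕ
  E : Fin m → Matrix (Fin N) (Fin N) F
  st : Fin m → Fin m
  mem : ∀ t, E t ∈ 𝒞
  stst : ∀ t, st (st t) = t
  adj : ∀ t, (E t)ᵀ * J = J * E (st t)
  eig : ∀ A ∈ 𝒞, ∀ t, ∃ c : F, A * E t = c • E t
  S : Type
  fS : Fintype S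
  dS : DecidableEq S
  lab : S → Fin m
  lab_ne : ∀ s s', lab s ≠ st (lab s')
  β : S → Fin N → F
  u : S → Fin N → F
  Eβ : ∀ t s, E t *ᵥ β s = if lab s = t then β s else 0
  Eu : ∀ t s, E t *ᵥ u s = if st (lab s) = t then u s else 0
  ββ : ∀ s s', bil J (β s) (β s') = 0
  uu : ∀ s s', bil J (u s) (u s') = 0
  βu : ∀ s s', bil J (β s) (u s') = if s = s' then 1 else 0
  full : ∀ v, v = ∑ s, (bil J v (u s) • β s + bil J (β s) v • u s)
  many : ∀ (s : S) (A : Finset S), A.card < n → ∃ s', s' ∉ A ∧ lab s' = lab s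

attribute [instance] Frame.fS Frame.dS

theorem exists_frame {F : Type} [Field F] [CharZero F] [IsAlgClosed F] {N n : ℕ}
    {J : Matrix (Fin N) (Fin N) F}
    {𝒞 : Subalgebra F (Matrix (Fin N) (Fin N) F)} (hJ : Jᵀ = -J) (hdet : J.det ≠ 0)
    (hcomm : ∀ A ∈ 𝒞, ∀ B ∈ 𝒞, A * B = B * A)
    (hadj : ∀ A ∈ 𝒞, ∃ A' ∈ 𝒞, Aᵀ * J = J * A') {B : Matrix (Fin N) (Fin N) F} (hB : B ∈ 𝒞)
    (hBJ : Bᵀ * J = -(J * B)) (hBdet : B.det ≠ 0)
    (hred : ∀ A ∈ 𝒞, IsNilpotent A → A = 0)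
    (hrank : ∀ e ∈ 𝒞, e * e = e → e ≠ 0 → n ≤ e.rank) : Nonempty (Frame J 𝒞 n) := by
  classical
  obtain ⟨T, hT, E', g0, g1, g2, g3, g4, g5⟩ := idem 𝒞 hcomm hred
  -- the index set is `Fin m`
  obtain ⟨m, E, h0, h1, h2, h3, h4, h5⟩ : ∃ (m : ℕ) (E : Fin m → Matrix (Fin N) (Fin N) F),
      (∀ t, E t ∈ 𝒞) ∧ (∀ t, E t * E t = E t) ∧ (∀ t, E t ≠ 0) ∧
      (∀ s t, s ≠ t → E s * E t = 0) ∧ ∑ t, E t = 1 ∧
      ∀ A ∈ 𝒞, ∀ t, ∃ c : F, A * E t = c • E t := by
    let q := Fintype.equivFin T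
    refine ⟨Fintype.card T, fun t => E' (q.symm t), fun t => g0 _, fun t => g1 _, fun t => g2 _,
      fun s t hst => g3 _ _ (fun h => hst (q.symm.injective h)), ?_, fun A hA t => g5 A hA _⟩
    rw [← g4]
    exact Equiv.sum_comp q.symm E'
  obtain ⟨st, h6, h7, h8⟩ := star hJ hdet hcomm hadj hB hBJ hBdet h0 h1 h2 h3 h4 h5
  have hu : IsUnit J.det := isUnit_iff_ne_zero.2 hdet
  have hanti : ∀ x y, bil J x y = -bil J y x := by
    intro x y
    unfold bil
    rw [dotProduct_mulVec, ← mulVec_transpose, hJ, neg_mulVec, neg_dotProduct, dotProduct_comm]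
  have hbadd : ∀ x y z, bil J x (y + z) = bil J x y + bil J x z := by
    intro x y z; unfold bil; rw [mulVec_add, dotProduct_add]
  have hbsum : ∀ {ι : Type} (A : Finset ι) (x : Fin N → F) (f : ι → Fin N → F),
      bil J x (∑ i ∈ A, f i) = ∑ i ∈ A, bil J x (f i) := by
    intro ι A x f
    unfold bil
    rw [Matrix.mulVec_sum, dotProduct_sum]
  have hbsum' : ∀ {ι : Type} (A : Finset ι) (x : Fin N → F) (f : ι → Fin N → F),
      bil J (∑ i ∈ A, f i) x = ∑ i ∈ A, bil J (f i) x := by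
    intro ι A x f
    unfold bil
    rw [sum_dotProduct]
  have hbsmul : ∀ (c : F) x y, bil J x (c • y) = c * bil J x y := by
    intro c x y; unfold bil; rw [mulVec_smul, dotProduct_smul, smul_eq_mul]
  have hbsmul' : ∀ (c : F) x y, bil J (c • x) y = c * bil J x y := by
    intro c x y; unfold bil; rw [smul_dotProduct, smul_eq_mul]
  have hb0 : ∀ x, bil J x 0 = 0 := by intro x; unfold bil; rw [mulVec_zero, dotProduct_zero]
  have hext : ∀ x y : Fin N → F, (∀ w, bil J w x = bil J w y) → x = y := by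
    intro x y h
    have h' : J *ᵥ x = J *ᵥ y := by
      funext i
      have := h (Pi.single i 1)
      unfold bil at this
      rwa [single_one_dotProduct, single_one_dotProduct] at this
    have h'' := congrArg (fun z => J⁻¹ *ᵥ z) h'
    simp only [mulVec_mulVec, Matrix.nonsing_inv_mul _ hu, one_mulVec] at h''
    exact h''
  have hadjb : ∀ t w x, bil J w (E (st t) *ᵥ x) = bil J (E t *ᵥ w) x := by
    intro t w x
    unfold bil
    rw [mulVec_mulVec, ← h8, ← mulVec_mulVec, dotProduct_mulVec, vecMul_transpose]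
  -- bases of the ranges
  let W : Fin m → Submodule F (Fin N → F) := fun t => LinearMap.range (E t).mulVecLin
  let q : ∀ t, Module.Basis (Fin (Module.finrank F (W t))) F (W t) := fun t => Module.finBasis F (W t)
  have hW : ∀ t (x : W t), E t *ᵥ (x : Fin N → F) = x := by
    rintro t ⟨_, w, rfl⟩
    change E t *ᵥ (E t *ᵥ w) = E t *ᵥ w
    rw [mulVec_mulVec, h1]
  have hW' : ∀ t s (x : W t), t ≠ s → E s *ᵥ (x : Fin N → F) = 0 := by
    rintro t s ⟨_, w, rfl⟩ hts
    change E s *ᵥ (E t *ᵥ w) = 0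
    rw [mulVec_mulVec, h3 _ _ (Ne.symm hts), zero_mulVec]
  let S : Type := Σ t : {t : Fin m // t < st t}, Fin (Module.finrank F (W t.1))
  let β : S → Fin N → F := fun s => (q s.1.1 s.2 : Fin N → F)
  let pr : ∀ t, (Fin N → F) →ₗ[F] W t := fun t => (E t).mulVecLin.rangeRestrict
  have hpr : ∀ t (w : Fin N → F), ((pr t w : W t) : Fin N → F) = E t *ᵥ w := fun t w => rfl
  let lf : S → (Fin N → F) →ₗ[F] F := fun s => ((q s.1.1).coord s.2).comp (pr s.1.1)
  have hex : ∀ s : S, ∃ u : Fin N → F, ∀ w, bil J w u = lf s w := by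
    intro s
    refine ⟨J⁻¹ *ᵥ (fun i => lf s (Pi.single i 1)), fun w => ?_⟩
    unfold bil
    rw [mulVec_mulVec, Matrix.mul_nonsing_inv _ hu, one_mulVec]
    have h9 : w = ∑ i, w i • (Pi.single i 1 : Fin N → F) := by
      funext j
      simp [Finset.sum_apply, Pi.single_apply]
    conv_rhs => rw [h9, map_sum]
    unfold dotProduct
    refine Finset.sum_congr rfl fun i _ => ?_
    rw [map_smul, smul_eq_mul]
  choose u hu' using hex
  have hprE : ∀ t (w : Fin N → F), pr t (E t *ᵥ w) = pr t w := by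
    intro t w
    apply Subtype.ext
    rw [hpr, hpr, mulVec_mulVec, h1]
  have hEu : ∀ s : S, E (st s.1.1) *ᵥ u s = u s := by
    intro s
    apply hext
    intro w
    rw [hadjb, hu', hu']
    change (q s.1.1).coord s.2 (pr s.1.1 (E s.1.1 *ᵥ w)) = (q s.1.1).coord s.2 (pr s.1.1 w)
    rw [hprE]
  have hEβ : ∀ s : S, E s.1.1 *ᵥ β s = β s := fun s => hW _ _
  have hEβ' : ∀ t (s : S), E t *ᵥ β s = if s.1.1 = t then β s else 0 := by
    intro t s
    split_ifs with h
    · rw [← h]; exact hEβ s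
    · exact hW' _ _ _ h
  have hEu'' : ∀ t (s : S), E t *ᵥ u s = if st s.1.1 = t then u s else 0 := by
    intro t s
    split_ifs with h
    · rw [← h]; exact hEu s
    · rw [← hEu s, mulVec_mulVec, h3 _ _ (Ne.symm h), zero_mulVec]
  have hlab : ∀ s s' : S, s.1.1 ≠ st s'.1.1 := by
    intro s s' h
    have e1 := s.1.2
    have e2 := s'.1.2
    rw [h, h6] at e1
    exact lt_asymm e1 e2
  have hβu : ∀ s s' : S, bil J (β s) (u s') = if s = s' then 1 else 0 := by
    rintro ⟨t, i⟩ ⟨t', i'⟩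
    rw [hu']
    by_cases h : t = t'
    · subst h
      change (q t.1).coord i' (pr t.1 (q t.1 i : Fin N → F)) = _
      have e1 : pr t.1 (q t.1 i : Fin N → F) = q t.1 i := Subtype.ext (hW _ _)
      rw [e1, Module.Basis.coord_apply, Module.Basis.repr_self, Finsupp.single_apply]
      by_cases h' : i = i'
      · subst h'; simp
      · rw [if_neg h', if_neg]
        intro h''
        apply h'
        exact eq_of_heq (Sigma.mk.inj_iff.1 h'').2
    · change (q t'.1).coord i' (pr t'.1 (q t.1 i : Fin N → F)) = _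
      have e1 : pr t'.1 (q t.1 i : Fin N → F) = 0 :=
        Subtype.ext (hW' _ _ _ (fun h' => h (Subtype.ext h')))
      rw [e1, map_zero, if_neg]
      intro h''
      exact h (congrArg Sigma.fst h'')
  -- completeness
  have hca : ∀ (t : {t : Fin m // t < st t}) (v : Fin N → F),
      E t.1 *ᵥ v = ∑ i, bil J v (u ⟨t, i⟩) • β ⟨t, i⟩ := by
    intro t v
    have e1 := (q t.1).sum_repr (pr t.1 v)
    have e2 := congrArg (fun x : W t.1 => (x : Fin N → F)) e1
    simp only [Submodule.coe_sum, Submodule.coe_smul, hpr] at e2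
    rw [← e2]
    refine Finset.sum_congr rfl fun i _ => ?_
    rw [hu']
    rfl
  have hcb : ∀ (t : {t : Fin m // t < st t}) (v : Fin N → F),
      E (st t.1) *ᵥ v = ∑ i, bil J (β ⟨t, i⟩) v • u ⟨t, i⟩ := by
    intro t v
    apply hext
    intro w
    rw [hadjb, hca t w, hbsum, hbsum']
    refine Finset.sum_congr rfl fun i _ => ?_
    rw [hbsmul, hbsmul', mul_comm]
  refine ⟨⟨m, E, st, h0, h6, h8, h5, S, inferInstance, inferInstance, fun s => s.1.1, hlab, β, u,
    hEβ', hEu'', ?_, ?_, hβu, ?_, ?_⟩⟩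
  · intro s s'
    rw [← hEβ s, ← hadjb, hEβ', if_neg (hlab s' s), hb0]
  · intro s s'
    rw [← hEu s, ← hadjb, h6, hEu'', if_neg (Ne.symm (hlab s s')), hb0]
  · intro v
    rw [Finset.sum_add_distrib, Fintype.sum_sigma, Fintype.sum_sigma]
    rw [Finset.sum_congr rfl fun t _ => (hca t v).symm, Finset.sum_congr rfl fun t _ => (hcb t v).symm]
    have e1 : v = ∑ t, E t *ᵥ v := by
      rw [← Matrix.sum_mulVec, h4, one_mulVec]
    have e2 : ∑ t, E t *ᵥ v = ∑ t with t < st t, E t *ᵥ v + ∑ t with ¬ t < st t, E t *ᵥ v :=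
      (Finset.sum_filter_add_sum_filter_not _ _ _).symm
    have e3 : ∑ t with ¬ t < st t, E t *ᵥ v = ∑ t with t < st t, E (st t) *ᵥ v := by
      symm
      refine Finset.sum_bij (fun t _ => st t) ?_ ?_ ?_ ?_
      · intro t ht
        rw [Finset.mem_filter] at ht ⊢
        refine ⟨Finset.mem_univ _, ?_⟩
        rw [h6]
        exact not_lt.2 ht.2.le
      · intro t _ t' _ h
        rw [← h6 t, h, h6]
      · intro t ht
        rw [Finset.mem_filter] at ht
        refine ⟨st t, ?_, h6 t⟩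
        rw [Finset.mem_filter, h6]
        exact ⟨Finset.mem_univ _, lt_of_le_of_ne (not_lt.1 ht.2) (h7 t)⟩
      · intro t _
        rfl
    conv_lhs => rw [e1, e2, e3]
    congr 1
    · exact Finset.sum_subtype _ (by simp) _
    · exact Finset.sum_subtype (p := fun t => t < st t) _ (by simp) (fun t => E (st t) *ᵥ v)
  · intro s A hA
    by_contra hcon
    push Not at hcon
    obtain ⟨t, i⟩ := s
    have e1 : (Finset.univ.image (fun j : Fin (Module.finrank F (W t.1)) => (⟨t, j⟩ : S))) ⊆ A := by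
      intro x hx
      rw [Finset.mem_image] at hx
      obtain ⟨j, _, rfl⟩ := hx
      by_contra h
      exact hcon ⟨t, j⟩ h rfl
    have e2 := Finset.card_le_card e1
    rw [Finset.card_image_of_injective _ (by
      intro a b hab
      simpa using hab), Finset.card_univ, Fintype.card_fin] at e2
    have e3 := hrank _ (h0 t.1) (h1 t.1) (h2 t.1)
    have e4 : (E t.1).rank = Module.finrank F (W t.1) := rfl
    omega

section inv

open Pool.Agent.H204R3.SP (JJ)
open Pool.Agent.H204R3.GP (InvG MatG matG)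
open Pool.Agent.Y142.SU (SULie Herm FromHerm)
open Pool.Agent.Y100.ZS (sw2 sw2_mulVec sw2_sp mate mate_mate mate_ne mate_e0 mate_e1 prod_pairs)
open Pool.Agent.Y155.ZI (Tσ Tσ_apply bil_toBilin)

variable {F : Type} [Field F] {N n : ℕ} {J : Matrix (Fin N) (Fin N) F}
    {𝒞 : Subalgebra F (Matrix (Fin N) (Fin N) F)}

/-- the vectors of the frame -/
def Frame.γ (Φ : Frame J 𝒞 n) (x : Φ.S × Bool) : Fin N → F := if x.2 then Φ.β x.1 else Φ.u x.1

/-- the classes -/
def Frame.cls (Φ : Frame J 𝒞 n) (x : Φ.S × Bool) : Fin Φ.m :=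
  if x.2 then Φ.lab x.1 else Φ.st (Φ.lab x.1)

/-- the involution -/
def iv {S : Type} (x : S × Bool) : S × Bool := (x.1, !x.2)

/-- the signs -/
def jg (F : Type) [Field F] {S : Type} (x : S × Bool) : F := if x.2 then 1 else -1

theorem iv_iv {S : Type} (x : S × Bool) : iv (iv x) = x := by
  simp [iv]

theorem jg_iv {S : Type} (x : S × Bool) : jg F (iv x) = -jg F x := by
  rcases x with ⟨s, b⟩
  cases b <;> simp [jg, iv]

theorem jg_ne {S : Type} (x : S × Bool) : jg F x ≠ 0 := by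
  rcases x with ⟨s, b⟩
  cases b <;> simp [jg]

theorem bil_anti (hJ : Jᵀ = -J) (x y : Fin N → F) : bil J x y = -bil J y x := by
  unfold bil
  rw [dotProduct_mulVec, ← mulVec_transpose, hJ, neg_mulVec, neg_dotProduct, dotProduct_comm]

variable (Φ : Frame J 𝒞 n)

theorem Frame.gram (hJ : Jᵀ = -J) (x y : Φ.S × Bool) :
    bil J (Φ.γ x) (Φ.γ y) = JJ iv (jg F) x y := by
  rcases x with ⟨s, b⟩
  rcases y with ⟨s', b'⟩
  cases b <;> cases b'
  · simp [Frame.γ, JJ, iv, Φ.uu]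
  · simp only [Frame.γ, JJ, iv, jg, Bool.false_eq_true, if_false, if_true, Bool.not_false,
      Prod.mk.injEq, and_true]
    rw [bil_anti hJ, Φ.βu]
    split_ifs <;> simp
  · simp only [Frame.γ, JJ, iv, jg, Bool.false_eq_true, if_false, if_true, Bool.not_true,
      Prod.mk.injEq, and_true]
    rw [Φ.βu]
    by_cases h : s = s'
    · rw [if_pos h, if_pos h.symm]
    · rw [if_neg h, if_neg (Ne.symm h)]
  · simp [Frame.γ, JJ, iv, Φ.ββ]

theorem Frame.cls_iv (x : Φ.S × Bool) : Φ.cls (iv x) = Φ.st (Φ.cls x) := by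
  rcases x with ⟨s, b⟩
  cases b <;> simp [Frame.cls, iv, Φ.stst]

theorem Frame.Eγ (t : Fin Φ.m) (x : Φ.S × Bool) :
    Φ.E t *ᵥ Φ.γ x = if Φ.cls x = t then Φ.γ x else 0 := by
  rcases x with ⟨s, b⟩
  cases b
  · simp only [Frame.γ, Frame.cls, Bool.false_eq_true, if_false]
    exact Φ.Eu t s
  · simp only [Frame.γ, Frame.cls, if_true]
    exact Φ.Eβ t s

theorem Frame.actR {A : Matrix (Fin N) (Fin N) F} {a : Fin Φ.m → F}
    (h : ∀ t, A * Φ.E t = a t • Φ.E t) (x : Φ.S × Bool) :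
    A *ᵥ Φ.γ x = a (Φ.cls x) • Φ.γ x := by
  have h1 : Φ.E (Φ.cls x) *ᵥ Φ.γ x = Φ.γ x := by rw [Φ.Eγ, if_pos rfl]
  calc A *ᵥ Φ.γ x = A *ᵥ (Φ.E (Φ.cls x) *ᵥ Φ.γ x) := by rw [h1]
    _ = a (Φ.cls x) • Φ.γ x := by rw [mulVec_mulVec, h, smul_mulVec, h1]

theorem Frame.actL (hcomm : ∀ A ∈ 𝒞, ∀ B ∈ 𝒞, A * B = B * A) {A : Matrix (Fin N) (Fin N) F}
    (hA : A ∈ 𝒞) {a : Fin Φ.m → F} (h : ∀ t, A * Φ.E t = a t • Φ.E t) (x : Φ.S × Bool) :
    (Φ.γ x ᵥ* J) ᵥ* A = a (Φ.cls (iv x)) • (Φ.γ x ᵥ* J) := by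
  have h1 : Φ.E (Φ.cls x) *ᵥ Φ.γ x = Φ.γ x := by rw [Φ.Eγ, if_pos rfl]
  have h2 : Φ.γ x ᵥ* J = (Φ.γ x ᵥ* J) ᵥ* Φ.E (Φ.cls (iv x)) := by
    rw [vecMul_vecMul, Φ.cls_iv, ← Φ.adj, ← vecMul_vecMul, vecMul_transpose, h1]
  rw [h2, vecMul_vecMul, hcomm _ (Φ.mem _) _ hA, h, vecMul_smul]

theorem Frame.sw_comm (hcomm : ∀ A ∈ 𝒞, ∀ B ∈ 𝒞, A * B = B * A) (b c : Φ.S × Bool)
    (hbc : Φ.cls (iv b) = Φ.cls c) {A : Matrix (Fin N) (Fin N) F} (hA : A ∈ 𝒞) :
    sw2 J (Φ.γ b) (Φ.γ c) * A = A * sw2 J (Φ.γ b) (Φ.γ c) := by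
  choose a ha using Φ.eig A hA
  have hcb : Φ.cls (iv c) = Φ.cls b := by rw [Φ.cls_iv, ← hbc, Φ.cls_iv, Φ.stst]
  unfold sw2
  rw [Matrix.add_mul, Matrix.mul_add, Matrix.vecMulVec_mul, Matrix.vecMulVec_mul,
    Matrix.mul_vecMulVec, Matrix.mul_vecMulVec, Φ.actL hcomm hA ha, Φ.actL hcomm hA ha,
    Φ.actR ha, Φ.actR ha, hbc, hcb, vecMulVec_smul, vecMulVec_smul, smul_vecMulVec,
    smul_vecMulVec]

theorem Frame.sw_trace (hJ : Jᵀ = -J) (hcomm : ∀ A ∈ 𝒞, ∀ B ∈ 𝒞, A * B = B * A)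
    (b c : Φ.S × Bool) (hbc : Φ.cls (iv b) = Φ.cls c) {A : Matrix (Fin N) (Fin N) F}
    (hA : A ∈ 𝒞) {a : Fin Φ.m → F} (ha : ∀ t, A * Φ.E t = a t • Φ.E t) :
    (sw2 J (Φ.γ b) (Φ.γ c) * A).trace =
      (a (Φ.cls (iv b)) - a (Φ.cls b)) * JJ iv (jg F) b c := by
  have hcb : Φ.cls (iv c) = Φ.cls b := by rw [Φ.cls_iv, ← hbc, Φ.cls_iv, Φ.stst]
  have h1 : ∀ x y : Fin N → F, y ⬝ᵥ (x ᵥ* J) = bil J x y := by
    intro x y
    unfold bil
    rw [dotProduct_comm, dotProduct_mulVec]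
  unfold sw2
  rw [Matrix.add_mul, Matrix.vecMulVec_mul, Matrix.vecMulVec_mul, trace_add, trace_vecMulVec,
    trace_vecMulVec, Φ.actL hcomm hA ha, Φ.actL hcomm hA ha, dotProduct_smul, dotProduct_smul,
    h1, h1, bil_anti hJ (Φ.γ c), Φ.gram hJ, hcb, smul_eq_mul, smul_eq_mul]
  ring

theorem Frame.su1 (hJ : Jᵀ = -J) (hcomm : ∀ A ∈ 𝒞, ∀ B ∈ 𝒞, A * B = B * A)
    (b c : Φ.S × Bool) (hbc : Φ.cls (iv b) = Φ.cls c) (hne : c ≠ iv b) :
    SULie J 𝒞 (sw2 J (Φ.γ b) (Φ.γ c)) := by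
  refine ⟨fun A hA => Φ.sw_comm hcomm b c hbc hA, sw2_sp hJ _ _, fun A hA => ?_⟩
  choose a ha using Φ.eig A hA
  rw [Φ.sw_trace hJ hcomm b c hbc hA ha, JJ, if_neg hne, mul_zero]

theorem Frame.su2 (hJ : Jᵀ = -J) (hcomm : ∀ A ∈ 𝒞, ∀ B ∈ 𝒞, A * B = B * A)
    (b b' : Φ.S × Bool) (h1 : Φ.cls b = Φ.cls b') (h2 : b.2 = b'.2) :
    SULie J 𝒞 (sw2 J (Φ.γ b) (Φ.γ (iv b)) - sw2 J (Φ.γ b') (Φ.γ (iv b'))) := by
  refine ⟨fun A hA => ?_, ?_, fun A hA => ?_⟩
  · rw [Matrix.sub_mul, Matrix.mul_sub, Φ.sw_comm hcomm _ _ rfl hA, Φ.sw_comm hcomm _ _ rfl hA]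
  · have e1 := sw2_sp hJ (Φ.γ b) (Φ.γ (iv b))
    have e2 := sw2_sp hJ (Φ.γ b') (Φ.γ (iv b'))
    unfold Pool.Agent.Y142.ZS.SpLie at e1 e2
    rw [transpose_sub, Matrix.sub_mul, Matrix.mul_sub]
    rw [eq_neg_of_add_eq_zero_left e1, eq_neg_of_add_eq_zero_left e2]
    abel
  · choose a ha using Φ.eig A hA
    rw [Matrix.sub_mul, trace_sub, Φ.sw_trace hJ hcomm _ _ rfl hA ha,
      Φ.sw_trace hJ hcomm _ _ rfl hA ha, JJ, JJ, if_pos rfl, if_pos rfl, Φ.cls_iv, Φ.cls_iv, h1]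
    unfold jg
    rw [h2, sub_self]

variable {k : ℕ}

theorem Frame.br_eq (hJ : Jᵀ = -J) (φ : MultilinearMap F (fun _ : Fin k => Fin N → F) F)
    (b c : Φ.S × Bool) (I : Fin k → Φ.S × Bool) :
    ∑ j, φ (Function.update (fun j => Φ.γ (I j)) j (sw2 J (Φ.γ b) (Φ.γ c) *ᵥ Φ.γ (I j))) =
      ∑ j, (JJ iv (jg F) b (I j) * φ (fun i => Φ.γ (Function.update I j c i)) +
        JJ iv (jg F) c (I j) * φ (fun i => Φ.γ (Function.update I j b i))) := by
  classical
  refine Finset.sum_congr rfl fun j _ => ?_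
  rw [sw2_mulVec, MultilinearMap.map_update_add, MultilinearMap.map_update_smul,
    MultilinearMap.map_update_smul, Φ.gram hJ, Φ.gram hJ]
  have h2 : ∀ x : Φ.S × Bool, Function.update (fun j => Φ.γ (I j)) j (Φ.γ x) =
      fun i => Φ.γ (Function.update I j x i) := by
    intro x
    exact (Function.comp_update (fun y => Φ.γ y) I j x).symm
  rw [h2, h2, smul_eq_mul, smul_eq_mul]

theorem Frame.br_zero (hJ : Jᵀ = -J) (hcomm : ∀ A ∈ 𝒞, ∀ B ∈ 𝒞, A * B = B * A) (hk : k < n)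
    (φ : MultilinearMap F (fun _ : Fin k => Fin N → F) F)
    (hφ : ∀ X, SULie J 𝒞 X → ∀ v : Fin k → Fin N → F,
      ∑ j, φ (Function.update v j (X *ᵥ v j)) = 0)
    (b c : Φ.S × Bool) (hbc : Φ.cls (iv b) = Φ.cls c) (I : Fin k → Φ.S × Bool) :
    ∑ j, (JJ iv (jg F) b (I j) * φ (fun i => Φ.γ (Function.update I j c i)) +
        JJ iv (jg F) c (I j) * φ (fun i => Φ.γ (Function.update I j b i))) = 0 := by
  classical
  by_cases hne : c = iv b
  · subst hne
    obtain ⟨s', hs', hl⟩ := Φ.many b.1 (Finset.univ.image fun j => (I j).1)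
      (lt_of_le_of_lt (Finset.card_image_le.trans (by simp)) hk)
    have hs'' : ∀ j, (I j).1 ≠ s' := fun j h => hs' (Finset.mem_image.2 ⟨j, Finset.mem_univ _, h⟩)
    have e1 := hφ _ (Φ.su2 hJ hcomm b (s', b.2) (by
      rcases b with ⟨s, b⟩
      simp only at hl
      simp only [Frame.cls, hl]) rfl) (fun j => Φ.γ (I j))
    simp only [sub_mulVec, MultilinearMap.map_update_sub, Finset.sum_sub_distrib] at e1
    rw [Φ.br_eq hJ, Φ.br_eq hJ] at e1
    have e2 : ∑ j, (JJ iv (jg F) (s', b.2) (I j) *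
          φ (fun i => Φ.γ (Function.update I j (iv (s', b.2)) i)) +
        JJ iv (jg F) (iv (s', b.2)) (I j) *
          φ (fun i => Φ.γ (Function.update I j (s', b.2) i))) = 0 := by
      refine Finset.sum_eq_zero fun j _ => ?_
      have e3 : JJ iv (jg F) (s', b.2) (I j) = 0 := by
        unfold JJ
        rw [if_neg]
        intro h
        exact hs'' j (by rw [h]; rfl)
      have e4 : JJ iv (jg F) (iv (s', b.2)) (I j) = 0 := by
        unfold JJ
        rw [if_neg]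
        intro h
        exact hs'' j (by rw [h]; rfl)
      rw [e3, e4, zero_mul, zero_mul, add_zero]
    rw [e2, sub_zero] at e1
    exact e1
  · rw [← Φ.br_eq hJ]
    exact hφ _ (Φ.su1 hJ hcomm b c hbc hne) _

theorem Frame.odd_zero [CharZero F] (hJ : Jᵀ = -J) (hcomm : ∀ A ∈ 𝒞, ∀ B ∈ 𝒞, A * B = B * A)
    (hk : k < n) (hodd : Odd k)
    (φ : MultilinearMap F (fun _ : Fin k => Fin N → F) F)
    (hφ : ∀ X, SULie J 𝒞 X → ∀ v : Fin k → Fin N → F,
      ∑ j, φ (Function.update v j (X *ᵥ v j)) = 0) (I : Fin k → Φ.S × Bool) :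
    φ (fun j => Φ.γ (I j)) = 0 := by
  classical
  have h1 : ∀ s : Φ.S, (∑ j, (JJ iv (jg F) (s, true) (I j) + JJ iv (jg F) (s, false) (I j))) *
      φ (fun j => Φ.γ (I j)) = 0 := by
    intro s
    rw [← Φ.br_zero hJ hcomm hk φ hφ (s, true) (s, false) rfl I, Finset.sum_mul]
    refine Finset.sum_congr rfl fun j _ => ?_
    rw [add_mul]
    congr 1
    · unfold JJ
      split_ifs with h
      · have h2 : Function.update I j (s, false) = I := by
          rw [show (s, false) = I j from h.symm, Function.update_eq_self]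
        rw [h2]
      · rw [zero_mul, zero_mul]
    · unfold JJ
      split_ifs with h
      · have h2 : Function.update I j (s, true) = I := by
          rw [show (s, true) = I j from h.symm, Function.update_eq_self]
        rw [h2]
      · rw [zero_mul, zero_mul]
  have h2 : (∑ s : Φ.S, ∑ j, (JJ iv (jg F) (s, true) (I j) + JJ iv (jg F) (s, false) (I j))) *
      φ (fun j => Φ.γ (I j)) = 0 := by
    rw [Finset.sum_mul]
    exact Finset.sum_eq_zero fun s _ => h1 s
  rw [Finset.sum_comm] at h2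
  have h3 : ∀ x : Φ.S × Bool, ∑ s : Φ.S, (JJ iv (jg F) (s, true) x + JJ iv (jg F) (s, false) x) =
      ((if x.2 then -1 else 1 : ℤ) : F) := by
    rintro ⟨s, b⟩
    rw [Finset.sum_eq_single s]
    · cases b <;> simp [JJ, iv, jg]
    · intro s' _ hs'
      simp [JJ, iv, Ne.symm hs']
    · simp
  rw [Finset.sum_congr rfl fun j _ => h3 (I j), ← Int.cast_sum] at h2
  rcases mul_eq_zero.1 h2 with h4 | h4
  · exfalso
    have h5 : (∑ j, (if (I j).2 then -1 else 1 : ℤ)) = 0 := by exact_mod_cast h4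
    have h6 : (∑ j, (if (I j).2 then -1 else 1 : ℤ)) % 2 = (∑ j : Fin k, (1 : ℤ)) % 2 := by
      rw [Finset.sum_int_mod, Finset.sum_int_mod (s := Finset.univ) (n := 2) (f := fun _ => (1:ℤ))]
      congr 1
      refine Finset.sum_congr rfl fun j _ => ?_
      cases (I j).2 <;> rfl
    rw [h5] at h6
    simp only [Finset.sum_const, Finset.card_univ, Fintype.card_fin, nsmul_eq_mul, mul_one] at h6
    obtain ⟨r, hr⟩ := hodd
    rw [hr] at h6
    push_cast at h6
    omega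
  · exact h4

end inv

section fin

open Pool.Agent.H204R3.SP (JJ)
open Pool.Agent.H204R3.GP (InvG MatG matG fftG)
open Pool.Agent.Y142.SU (SULie Herm FromHerm S_FFTU)
open Pool.Agent.Y100.ZS (sw2 sw2_mulVec sw2_sp mate mate_mate mate_ne mate_e0 mate_e1 prod_pairs)
open Pool.Agent.Y155.ZI (Tσ Tσ_apply bil_toBilin)

variable {F : Type} [Field F] {N n : ℕ} {J : Matrix (Fin N) (Fin N) F}
    {𝒞 : Subalgebra F (Matrix (Fin N) (Fin N) F)} (Φ : Frame J 𝒞 n) {k : ℕ}

/-- the coordinates -/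
def Frame.co (v : Fin N → F) (y : Φ.S × Bool) : F :=
  if y.2 then bil J v (Φ.u y.1) else bil J (Φ.β y.1) v

theorem Frame.expand (v : Fin N → F) : v = ∑ y : Φ.S × Bool, Φ.co v y • Φ.γ y := by
  conv_lhs => rw [Φ.full v]
  rw [Fintype.sum_prod_type]
  refine Finset.sum_congr rfl fun s _ => ?_
  rw [Fintype.sum_bool]
  simp [Frame.co, Frame.γ]

theorem Frame.ext_ml (φ ψ : MultilinearMap F (fun _ : Fin k => Fin N → F) F)
    (h : ∀ I : Fin k → Φ.S × Bool, φ (fun j => Φ.γ (I j)) = ψ (fun j => Φ.γ (I j))) : φ = ψ := by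
  classical
  have key : ∀ (χ : MultilinearMap F (fun _ : Fin k => Fin N → F) F) (v : Fin k → Fin N → F),
      χ v = ∑ I : Fin k → Φ.S × Bool, (∏ j, Φ.co (v j) (I j)) • χ (fun j => Φ.γ (I j)) := by
    intro χ v
    have e1 : v = fun j => ∑ y : Φ.S × Bool, Φ.co (v j) y • Φ.γ y := by
      funext j
      exact Φ.expand (v j)
    conv_lhs => rw [e1]
    rw [MultilinearMap.map_sum]
    refine Finset.sum_congr rfl fun I _ => ?_
    rw [MultilinearMap.map_smul_univ]
  refine MultilinearMap.ext fun v => ?_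
  rw [key φ, key ψ]
  exact Finset.sum_congr rfl fun I _ => by rw [h]

theorem hclsΦ (x y : Φ.S × Bool) (h : Φ.cls x = Φ.cls y) : Φ.cls (iv x) = Φ.cls (iv y) := by
  rw [Φ.cls_iv, Φ.cls_iv, h]

open Classical in
/-- the part of type `τ` -/
noncomputable def typ {R Q : Type} (cls : R → Q) (τ : Fin k → Q) (G : (Fin k → R) → F) :
    (Fin k → R) → F := fun I => if ∀ j, cls (I j) = τ j then G I else 0

theorem Frame.typ_mem (hJ : Jᵀ = -J) (hcomm : ∀ A ∈ 𝒞, ∀ B ∈ 𝒞, A * B = B * A) (hk : k < n)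
    (φ : MultilinearMap F (fun _ : Fin k => Fin N → F) F)
    (hφ : ∀ X, SULie J 𝒞 X → ∀ v : Fin k → Fin N → F,
      ∑ j, φ (Function.update v j (X *ᵥ v j)) = 0) (τ : Fin k → Fin Φ.m) :
    typ Φ.cls τ (fun I => φ (fun j => Φ.γ (I j))) ∈ InvG Φ.cls iv (jg F) (Fin k) τ := by
  classical
  have hty : ∀ (I : Fin k → Φ.S × Bool) (j : Fin k) (y : Φ.S × Bool), Φ.cls y = Φ.cls (I j) →
      ((∀ l, Φ.cls (Function.update I j y l) = τ l) ↔ ∀ l, Φ.cls (I l) = τ l) := by
    intro I j y hy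
    refine forall_congr' fun l => ?_
    by_cases h : l = j
    · subst h
      rw [Function.update_self, hy]
    · rw [Function.update_of_ne h]
  refine ⟨fun b c hbc I => ?_, fun I hI j => ?_⟩
  · have hcb : Φ.cls (iv c) = Φ.cls b := by rw [Φ.cls_iv, ← hbc, Φ.cls_iv, Φ.stst]
    have e1 := Φ.br_zero hJ hcomm hk φ hφ b c hbc I
    have e2 : ∀ j, JJ iv (jg F) b (I j) *
        typ Φ.cls τ (fun I => φ (fun j => Φ.γ (I j))) (Function.update I j c) =
        (if ∀ l, Φ.cls (I l) = τ l then 1 else 0) *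
          (JJ iv (jg F) b (I j) * φ (fun i => Φ.γ (Function.update I j c i))) := by
      intro j
      unfold JJ
      by_cases h : I j = iv b
      · rw [if_pos h]
        unfold typ
        have h3 := hty I j c (by rw [h, hbc])
        by_cases h4 : ∀ l, Φ.cls (I l) = τ l
        · rw [if_pos (h3.2 h4), if_pos h4, one_mul]
        · rw [if_neg (fun h5 => h4 (h3.1 h5)), if_neg h4, mul_zero, zero_mul]
      · rw [if_neg h, zero_mul, zero_mul, mul_zero]
    have e3 : ∀ j, JJ iv (jg F) c (I j) *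
        typ Φ.cls τ (fun I => φ (fun j => Φ.γ (I j))) (Function.update I j b) =
        (if ∀ l, Φ.cls (I l) = τ l then 1 else 0) *
          (JJ iv (jg F) c (I j) * φ (fun i => Φ.γ (Function.update I j b i))) := by
      intro j
      unfold JJ
      by_cases h : I j = iv c
      · rw [if_pos h]
        unfold typ
        have h3 := hty I j b (by rw [h, hcb])
        by_cases h4 : ∀ l, Φ.cls (I l) = τ l
        · rw [if_pos (h3.2 h4), if_pos h4, one_mul]
        · rw [if_neg (fun h5 => h4 (h3.1 h5)), if_neg h4, mul_zero, zero_mul]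
      · rw [if_neg h, zero_mul, zero_mul, mul_zero]
    rw [Finset.sum_congr rfl fun j _ => by rw [e2, e3, ← mul_add], ← Finset.mul_sum, e1, mul_zero]
  · unfold typ at hI
    by_contra h
    apply hI
    rw [if_neg]
    intro h'
    exact h (h' j)

theorem sum_typ {R Q : Type} [Fintype Q] (cls : R → Q) (G : (Fin k → R) → F) :
    ∑ τ : Fin k → Q, typ cls τ G = G := by
  classical
  funext I
  rw [Finset.sum_apply, Finset.sum_eq_single (fun l => cls (I l))]
  · unfold typ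
    rw [if_pos fun _ => rfl]
  · intro τ _ hτ
    unfold typ
    rw [if_neg]
    intro h
    exact hτ (funext fun l => (h l).symm)
  · intro h
    exact absurd (Finset.mem_univ _) h

/-- the projection in the first slots of the pairs -/
noncomputable def Lm {m r : ℕ} (E : Fin r → Matrix (Fin N) (Fin N) F) (e : Fin m × Fin 2 ≃ Fin k)
    (c : Fin m → Fin r) (j : Fin k) : (Fin N → F) →ₗ[F] (Fin N → F) :=
  if (e.symm j).2 = 0 then (E (c (e.symm j).1)).mulVecLin else LinearMap.id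

/-- the multilinear form of a matching with types -/
noncomputable def TT {m : ℕ} (e : Fin m × Fin 2 ≃ Fin k) (c : Fin m → Fin Φ.m) :
    MultilinearMap F (fun _ : Fin k => Fin N → F) F :=
  (Tσ (Matrix.toBilin' J) (mate e) (mate_mate e) (mate_ne e)).compLinearMap
    (fun j => Lm Φ.E e c j)

theorem TT_apply {m : ℕ} (e : Fin m × Fin 2 ≃ Fin k) (c : Fin m → Fin Φ.m)
    (v : Fin k → Fin N → F) : TT Φ e c v =
      ∏ j with j < mate e j, bil J (Lm Φ.E e c j (v j)) (Lm Φ.E e c (mate e j) (v (mate e j))) := by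
  unfold TT
  rw [MultilinearMap.compLinearMap_apply, Tσ_apply]
  refine Finset.prod_congr rfl fun j _ => ?_
  rw [bil_toBilin]

theorem Lm0 {m r : ℕ} (E : Fin r → Matrix (Fin N) (Fin N) F) (e : Fin m × Fin 2 ≃ Fin k)
    (c : Fin m → Fin r) (l : Fin m) (x : Fin N → F) : Lm E e c (e (l, 0)) x = E (c l) *ᵥ x := by
  unfold Lm
  rw [Equiv.symm_apply_apply, if_pos rfl]
  rfl

theorem Lm1 {m r : ℕ} (E : Fin r → Matrix (Fin N) (Fin N) F) (e : Fin m × Fin 2 ≃ Fin k)
    (c : Fin m → Fin r) (l : Fin m) (x : Fin N → F) : Lm E e c (e (l, 1)) x = x := by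
  unfold Lm
  rw [Equiv.symm_apply_apply, if_neg (one_ne_zero : (1 : Fin 2) ≠ 0)]
  rfl

theorem TT_mat (hJ : Jᵀ = -J) {m : ℕ} (e : Fin m × Fin 2 ≃ Fin k) (c : Fin m → Fin Φ.m) :
    ∃ s : F, ∀ I : Fin k → Φ.S × Bool,
      matG Φ.cls iv (jg F) e c I = s * TT Φ e c (fun j => Φ.γ (I j)) := by
  obtain ⟨s, hs⟩ := prod_pairs (K := F) e (fun a b : Fin N → F => bil J a b) (bil_anti hJ)
  refine ⟨s, fun I => ?_⟩
  rw [TT_apply, ← hs (fun j => Lm Φ.E e c j (Φ.γ (I j)))]
  unfold matG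
  refine Finset.prod_congr rfl fun l _ => ?_
  rw [Lm0, Lm1, Φ.Eγ]
  split_ifs
  · rw [Φ.gram hJ]
  · unfold bil
    rw [zero_dotProduct]

theorem TT_from {m : ℕ} (e : Fin m × Fin 2 ≃ Fin k) (c : Fin m → Fin Φ.m) :
    (fun v => TT Φ e c v) ∈ FromHerm J 𝒞 k := by
  refine Submodule.subset_span ⟨Function.Involutive.toPerm (mate e) (mate_mate e),
    fun j => if (e.symm j).2 = 0 then Φ.E (c (e.symm j).1) else Φ.E (Φ.st (c (e.symm j).1)),
    mate_mate e, mate_ne e, fun j => ?_, fun v => ?_⟩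
  · dsimp only
    split_ifs
    · exact Φ.mem _
    · exact Φ.mem _
  · change TT Φ e c v = _
    rw [TT_apply]
    refine Finset.prod_congr rfl fun j _ => ?_
    change _ = (_ *ᵥ v j) ⬝ᵥ J *ᵥ v (mate e j)
    obtain ⟨⟨l, i⟩, rfl⟩ := e.surjective j
    have hi : i = 0 ∨ i = 1 := by fin_cases i <;> simp
    rcases hi with rfl | rfl
    · rw [mate_e0, Lm0, Lm1]
      beta_reduce
      rw [Equiv.symm_apply_apply, if_pos rfl]
      rfl
    · rw [mate_e1, Lm0, Lm1]
      beta_reduce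
      rw [Equiv.symm_apply_apply, if_neg (one_ne_zero : (1 : Fin 2) ≠ 0)]
      unfold bil
      have h1 := Φ.adj (Φ.st (c l))
      rw [Φ.stst] at h1
      rw [mulVec_mulVec, ← h1, ← mulVec_mulVec, dotProduct_mulVec, vecMul_transpose]

include Φ in
/-- the theorem for alternating forms -/
theorem main1 [CharZero F] (hJ : Jᵀ = -J) (hcomm : ∀ A ∈ 𝒞, ∀ B ∈ 𝒞, A * B = B * A) (hk : k < n)
    (φ : MultilinearMap F (fun _ : Fin k => Fin N → F) F)
    (hφ : ∀ X, SULie J 𝒞 X → ∀ v : Fin k → Fin N → F,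
      ∑ j, φ (Function.update v j (X *ᵥ v j)) = 0) :
    (fun v => φ v) ∈ FromHerm J 𝒞 k := by
  classical
  rcases Nat.even_or_odd' k with ⟨m, hm | hm⟩
  · have h1 : (fun I : Fin k → Φ.S × Bool => φ (fun j => Φ.γ (I j))) ∈
        MatG Φ.cls iv (jg F) (Fin k) m := by
      rw [← sum_typ Φ.cls (fun I : Fin k → Φ.S × Bool => φ (fun j => Φ.γ (I j)))]
      refine Submodule.sum_mem _ fun τ _ => ?_
      exact fftG iv_iv jg_iv jg_ne (hclsΦ Φ) m (Fin k) (by rw [Fintype.card_fin, hm]) τ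
        (Φ.typ_mem hJ hcomm hk φ hφ τ)
    let evq : MultilinearMap F (fun _ : Fin k => Fin N → F) F →ₗ[F]
        ((Fin k → Φ.S × Bool) → F) :=
      { toFun := fun T I => T (fun j => Φ.γ (I j))
        map_add' := fun _ _ => rfl
        map_smul' := fun _ _ => rfl }
    have hinj : Function.Injective evq := fun T T' h => Φ.ext_ml T T' fun I => congrFun h I
    let eve : MultilinearMap F (fun _ : Fin k => Fin N → F) F →ₗ[F] ((Fin k → Fin N → F) → F) :=
      { toFun := fun T v => T v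
        map_add' := fun _ _ => rfl
        map_smul' := fun _ _ => rfl }
    let GG : Set (MultilinearMap F (fun _ : Fin k => Fin N → F) F) :=
      {T | ∃ (e : Fin m × Fin 2 ≃ Fin k) (c : Fin m → Fin Φ.m), T = TT Φ e c}
    have h2 : evq φ ∈ (Submodule.span F GG).map evq := by
      have hle : MatG Φ.cls iv (jg F) (Fin k) m ≤ (Submodule.span F GG).map evq := by
        unfold MatG
        rw [Submodule.span_le]
        rintro _ ⟨e, c, rfl⟩
        obtain ⟨s, hs⟩ := TT_mat Φ hJ e c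
        refine ⟨s • TT Φ e c, Submodule.smul_mem _ _ (Submodule.subset_span ⟨e, c, rfl⟩), ?_⟩
        funext I
        exact (hs I).symm
      exact hle h1
    obtain ⟨T, hT, hT'⟩ := h2
    have h3 : φ ∈ Submodule.span F GG := by
      rw [← hinj hT']
      exact hT
    have h4 : eve φ ∈ (Submodule.span F GG).map eve := Submodule.mem_map_of_mem h3
    rw [Submodule.map_span] at h4
    refine Submodule.span_le.2 ?_ h4
    rintro _ ⟨_, ⟨e, c, rfl⟩, rfl⟩
    exact TT_from Φ e c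
  · have h1 : φ = 0 := Φ.ext_ml φ 0 fun I =>
      Φ.odd_zero hJ hcomm hk ⟨m, hm⟩ φ hφ I
    rw [h1]
    exact Submodule.zero_mem _

theorem t : S_FFTU := by
  classical
  intro F _ _ _ N n J 𝒞 hH hred hrank k φ hk hφ
  obtain ⟨hsym, hdet, hcomm, hadj, A, hA, A', hA', hAJ, hAA⟩ := hH
  have hu : IsUnit J.det := isUnit_iff_ne_zero.2 hdet
  have htr : ∀ X Y : Matrix (Fin N) (Fin N) F, Xᵀ * J = J * Y → Yᵀ * J = J * X := by
    intro X Y h
    have h' := congrArg transpose h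
    rw [transpose_mul, transpose_mul, transpose_transpose] at h'
    rcases hsym with hs | hs
    · rw [hs] at h'
      exact h'.symm
    · rw [hs, neg_mul, mul_neg, neg_inj] at h'
      exact h'.symm
  obtain ⟨B, hBdef⟩ : ∃ B, B = A - A' := ⟨_, rfl⟩
  have hB : B ∈ 𝒞 := by rw [hBdef]; exact 𝒞.sub_mem hA hA'
  have hBdet : B.det ≠ 0 := by rw [hBdef]; exact hAA
  have hBJ : Bᵀ * J = -(J * B) := by
    rw [hBdef, transpose_sub, Matrix.sub_mul, hAJ, htr _ _ hAJ, Matrix.mul_sub, neg_sub]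
  rcases hsym with hs | hs
  · -- symmetric case: use `J * B`
    have hJ1 : (J * B)ᵀ = -(J * B) := by rw [transpose_mul, hs, hBJ]
    have hdet1 : (J * B).det ≠ 0 := by rw [det_mul]; exact mul_ne_zero hdet hBdet
    have hadj1 : ∀ X ∈ 𝒞, ∃ X' ∈ 𝒞, Xᵀ * (J * B) = J * B * X' := by
      intro X hX
      obtain ⟨X', hX', h⟩ := hadj X hX
      refine ⟨X', hX', ?_⟩
      rw [← Matrix.mul_assoc, h, Matrix.mul_assoc, hcomm _ hX' _ hB, Matrix.mul_assoc]
    have hBJ1 : Bᵀ * (J * B) = -(J * B * B) := by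
      rw [← Matrix.mul_assoc, hBJ, Matrix.neg_mul]
    obtain ⟨Φ⟩ := exists_frame (n := n) hJ1 hdet1 hcomm hadj1 hB hBJ1 hBdet hred hrank
    have h1 := main1 Φ hJ1 hcomm hk φ (fun X hX v => by
      refine hφ X ⟨hX.1, ?_, hX.2.2⟩ v
      have h2 := hX.2.1
      have h3 : (Xᵀ * J + J * X) * B = 0 := by
        rw [← h2, Matrix.add_mul, Matrix.mul_assoc, Matrix.mul_assoc, hX.1 B hB, Matrix.mul_assoc]
      have h4 := congrArg (fun Z => Z * B⁻¹) h3
      simp only [Matrix.mul_assoc, Matrix.mul_nonsing_inv _ (isUnit_iff_ne_zero.2 hBdet),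
        Matrix.mul_one, Matrix.zero_mul] at h4
      exact h4)
    refine Submodule.span_mono ?_ h1
    rintro f ⟨π, C, h2, h3, h4, h5⟩
    refine ⟨π, fun j => -(B * C j), h2, h3, fun j => 𝒞.neg_mem (𝒞.mul_mem hB (h4 j)),
      fun v => ?_⟩
    rw [h5]
    refine Finset.prod_congr rfl fun j _ => ?_
    have h6 : J * B = -(Bᵀ * J) := by rw [hBJ, neg_neg]
    rw [h6, neg_mulVec, dotProduct_neg, ← mulVec_mulVec, dotProduct_mulVec, vecMul_transpose,
      mulVec_mulVec, neg_mulVec, neg_dotProduct]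
  · obtain ⟨Φ⟩ := exists_frame (n := n) hs hdet hcomm hadj hB hBJ hBdet hred hrank
    exact main1 Φ hs hcomm hk φ hφ

end fin

end Pool.Agent.Y468.SU
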